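import Pool.Agent.H55.SnfB

namespace Pool.Agent.Results.MP_e5b41c_gt.Abelian
open Pool.Agent.H55.Snf

theorem result (X : Type*) [TopologicalSpace X] [T35Space X] (hk : KSp X) (hr : RegDiag X)
    (h : LevelSnf X 2) : LevelSnf X 3 :=
  levels hk hr le_rfl h 3

end Pool.Agent.Results.MP_e5b41c_gt.Abelian
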