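import Pool.Agent.H55.SnfD

namespace Pool.Agent.Results.MP_e5b41c_gt.Free
open Pool.Agent.H55.Snf

theorem result (X : Type*) [TopologicalSpace X] [T35Space X] (hk : KSp X) (hr : RegDiag X)
    [TopologicalSpace (FreeGroup X)] [IsTopologicalGroup (FreeGroup X)] [T2Space (FreeGroup X)]
    (hof : Continuous (FreeGroup.of : X → FreeGroup X))
    (hu : ∀ (G : Type) [Group G] [TopologicalSpace G] [IsTopologicalGroup G] (f : X → G),
      Continuous f → Continuous (FreeGroup.lift f))
    (h : SnfCountable (FLevel X 2)) : SnfCountable (FLevel X 3) :=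
  mainF hk hr hof hu h

end Pool.Agent.Results.MP_e5b41c_gt.Free
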